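import Mathlib
import Pool.Agent.Helper10.BD.Asm6

/-!
# Unirationality of the varieties defined by `r` equations of degree at most `d`, in any number of variables

Q2 asks for an algorithm which decides unirationality. The input is a system of equations; its complexity is measured by
the number `r` of the equations, their degrees, and the number `n` of the variables. We prove that, for fixed `r` and `d`,
only a bounded number of variables matters:

**Theorem.** For all `r`, `d` there is a number `S` with the following property. Let `k` be an algebraically closed field of
characteristic zero and let `f_1, …, f_r` be polynomials of degree at most `d` in any number `n` of variables over `k`. There are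
`s ≤ S` forms `u_1, …, u_s` of degrees between `1` and `d` in the `n` variables and polynomials `F_1, …, F_r` of degree at most `d`
in `s` variables such that `f_i = F_i (u_1, …, u_s)`, and

* `V ↦ Z =` (the closure of the image of `V` under `u : A^n → A^s`) is a bijection from the set of the irreducible components
  of `{f = 0}` to the set of the irreducible components of `{F = 0}`, which preserves the codimension;
* every irreducible component `V` of `{f = 0}` (of any dimension, with any singularities) is unirational over its image `Z`:
  the function field `k(V)` embeds over the subfield `k(Z)` into a field `k(Z)(t_1, …, t_m)`;
* `V` is unirational if and only if `Z` is.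

So the unirationality of all varieties defined by `r` equations of degree at most `d`, in all dimensions, is decided by the
unirationality of the varieties defined by `r` equations of degree at most `d` in an affine space of the fixed dimension `S(r, d)`.

## Idea of the proof

*Strength.* The strength of a form `v` of degree `e` is the least number `t` such that `v` is a sum of `t` products of forms of
lower degrees. We prove (in characteristic zero; theorem of Ananyan and Hochster, with a short proof by derivations of the
coefficients) that forms whose singular locus has small codimension have small strength (`Helper10/BD/LS.lean`).

*Regularisation.* If a linear combination (of forms of the same degree) of the `u_j` has small strength, we replace one of them by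
the factors of lower degrees. This ends after a bounded number of steps, and all combinations have a strength larger than any
prescribed function of the number of the forms.

*Free linear spaces.* If the strength of all combinations is large, then there is a linear space `Λ` of large dimension on
which all the `u_j` vanish and which is *free*: the linear parts of the `u_j` along `Λ` take arbitrary values. (Dimension count; a
relation between the linear parts gives a singular point of a combination of the `u_j` of the same degree at infinity.)

*Unirationality.* By the method of helper4 (after Harris, Mazur and Pandharipande) the homogenised system
`u_j (x) = z_j x_0 ^ (deg u_j)` over the field `K = k(Z)`, `z` the generic point of `Z`, has a point `R` over a field `K(t_1, …, t_m)`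
such that all tangent vectors at `R` are values of derivations. Since the system contains the free linear space, it is
irreducible and all its points are specialisations of `R`. So the generic fibre of `u` over `Z` is dominated by an affine space.

*Components.* The system `u` is a part of a homogeneous system of parameters, so the polynomial ring in `x` is integral over the
polynomial ring in the `u_j` and `n - s` linear forms; going down holds, and the components of `{f = 0}` correspond to the
components of `{F = 0}`.

Modules by other agents: helper4 (point over `K(t)`, irreducibility), helper48 (free linear spaces, tangent vector fields),
helper45 (tangent spaces of points, cones and their intersections with hypersurfaces, independence of one more form), helper47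
(descent of the strength, regularisation), helper21 (admissible degrees, Krull), helper64 (graded Noether normalisation),
helper66 (`FewQuadrics`, the case `d = 2`, in a more precise form).
-/

set_option autoImplicit false

namespace Pool.Agent.Results.MP_1dc56d_ag.BoundedDegreeSystems

open MvPolynomial

universe v

variable {k : Type v} [Field k] {r n s : ℕ}

/-- The function field of the variety in `A^n` with the prime ideal `P`: the field of fractions of the
coordinate ring. -/
abbrev FunctionField (P : Ideal (MvPolynomial (Fin n) k)) : Type v :=
  FractionRing (MvPolynomial (Fin n) k ⧸ P)

/-- The rational function on the variety given by the polynomial `g`. -/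
noncomputable def cls (P : Ideal (MvPolynomial (Fin n) k)) (g : MvPolynomial (Fin n) k) : FunctionField P :=
  algebraMap (MvPolynomial (Fin n) k ⧸ P) (FunctionField P) (Ideal.Quotient.mk P g)

/-- The variety is unirational: its function field embeds into some field `k(t_1, …, t_m)`. -/
def IsUnirational (P : Ideal (MvPolynomial (Fin n) k)) : Prop :=
  ∃ m : ℕ, Nonempty (FunctionField P →ₐ[k] FractionRing (MvPolynomial (Fin m) k))

/-- The irreducible components of the set of the common zeros of the polynomials `f i`, given by their prime
ideals. -/
def components (f : Fin r → MvPolynomial (Fin n) k) : Set (Ideal (MvPolynomial (Fin n) k)) :=
  (Ideal.span (Set.range f)).minimalPrimes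

/-- The substitution of the polynomials `u j` for the variables: the map `u : A^n → A^s` on functions. -/
noncomputable def pullback (u : Fin s → MvPolynomial (Fin n) k) :
    MvPolynomial (Fin s) k →ₐ[k] MvPolynomial (Fin n) k :=
  aeval u

/-- The prime ideal of the closure of the image under `u` of the variety with the prime ideal `P`. -/
noncomputable def image (u : Fin s → MvPolynomial (Fin n) k) (P : Ideal (MvPolynomial (Fin n) k)) :
    Ideal (MvPolynomial (Fin s) k) :=
  P.comap (pullback u)

/-- The `k`-algebra `L` embeds into a field of rational functions over `K` such that the elements `b j` of `L` are mapped
to the elements `a j` of `K`. -/
def EmbedsOver (k : Type v) {K L ι : Type*} [CommRing k] [CommRing K] [CommRing L] [Algebra k K] [Algebra k L]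
    (a : ι → K) (b : ι → L) : Prop :=
  ∃ (m : ℕ) (φ : L →ₐ[k] FractionRing (MvPolynomial (Fin m) K)), ∀ j, φ (b j) = algebraMap K _ (a j)

/-- The variety `V` with the prime ideal `P` is unirational over the closure `Z` of its image under `u`: there is an
embedding of `k(V)` into a field `k(Z)(t_1, …, t_m)` which maps the functions `u j` to the coordinates of `Z` (so it
is the identity on the subfield `k(Z)`). -/
def IsUnirationalOverImage (u : Fin s → MvPolynomial (Fin n) k) (P : Ideal (MvPolynomial (Fin n) k)) : Prop :=
  EmbedsOver k (fun j => cls (image u P) (X j)) (fun j => cls P (u j))

/-- The image `Z` under `u` of the variety `V` with the prime ideal `P` has the same codimension as `V`; `V` is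
unirational over `Z`; and `V` is unirational if and only if `Z` is. -/
def GoodImage (u : Fin s → MvPolynomial (Fin n) k) (P : Ideal (MvPolynomial (Fin n) k)) : Prop :=
  P.height = (image u P).height ∧ IsUnirationalOverImage u P ∧ (IsUnirational P ↔ IsUnirational (image u P))

/-- The system `f` of polynomials in `n` variables is reduced to the system `F` of polynomials of degree at most `d` in
`s` variables by the forms `u j` of degrees between `1` and `d`: `f i = F i (u)`, taking the closure of the
image under `u` is a bijection from the components of `{f = 0}` to the components of `{F = 0}`, and `GoodImage` holds
for all components of `{f = 0}`. -/
def IsReduction (d : ℕ) (f : Fin r → MvPolynomial (Fin n) k) (u : Fin s → MvPolynomial (Fin n) k)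
    (F : Fin r → MvPolynomial (Fin s) k) : Prop :=
  (∀ j, ∃ e, 1 ≤ e ∧ e ≤ d ∧ (u j).IsHomogeneous e) ∧ (∀ i, (F i).totalDegree ≤ d) ∧ (∀ i, pullback u (F i) = f i) ∧
    Set.BijOn (image u) (components f) (components F) ∧ ∀ P ∈ components f, GoodImage u P

/-- **Unirationality of the varieties defined by `r` equations of degree at most `d`, in any number of variables.** For
all `r` and `d` there is a number `S` such that for every algebraically closed field `k` of characteristic zero, every
system of polynomials `f 1, …, f r` of degree at most `d` in any number `n` of variables is reduced (`IsReduction`) to a
system of `r` polynomials `F i` of degree at most `d` in `s ≤ S` variables by forms `u j` of degrees between `1` and `d`: the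
components of `{f = 0}` correspond to their images `Z`, which are the components of `{F = 0}`, every component is
unirational over its image, and it is unirational if and only if its image is. -/
theorem result (r d : ℕ) : ∃ S : ℕ,
    ∀ (k : Type v) [Field k] [IsAlgClosed k] [CharZero k] (n : ℕ) (f : Fin r → MvPolynomial (Fin n) k),
      (∀ i, (f i).totalDegree ≤ d) →
      ∃ (s : ℕ) (u : Fin s → MvPolynomial (Fin n) k) (F : Fin r → MvPolynomial (Fin s) k),
        s ≤ S ∧ IsReduction d f u F := by
  obtain ⟨S, hS⟩ := Pool.Agent.Helper10.BD.main_thm.{v} r d
  refine ⟨S, fun k _ _ _ n f hf => ?_⟩
  obtain ⟨s, e, u, F, h1, h2, h3, h4, h5, h6, h7⟩ := hS k n f hf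
  exact ⟨s, u, F, h1, fun j => ⟨e j + 1, Nat.le_add_left _ _, h2 j, h3 j⟩, h4, h5, h6, h7⟩

end Pool.Agent.Results.MP_1dc56d_ag.BoundedDegreeSystems
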