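import Mathlib
import Pool.Agent.Helper66.FQ.Main
import Pool.Agent.Helper66.FQ.Concl

/-!
# Rationality and unirationality: varieties defined by few quadratic equations

Every variety is an intersection of quadrics (Veronese embedding), so Q1 and Q2 can be asked for the
irreducible components `V` of the sets given by `r` equations of degree at most two, in any number `n`
of variables. Here the number `r` of the equations measures the complexity of the input, and `n` and
the dimension are unbounded. We prove that for fixed `r` only varieties of bounded dimension matter:

for all `n` and all equations `q_1, …, q_r` of degree at most two over an algebraically closed field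
`k` of characteristic not two, every irreducible component `V` of the set `q_1 = … = q_r = 0` (of
any dimension, with any singularities) is birational to `Z × A^m`, where `Z` is an irreducible
component of a set given by at most `r` equations of degree at most two in at most
`S(r) = (2 ^ r - 1) r (2 r + 3)` variables. Moreover `Z` is the closure of the image of `V` under a
linear projection, and its equations are linear combinations of the `q_i`.

Hence `V` is unirational if and only if `Z` is, `V` is stably rational if and only if `Z` is, and `V` is
rational if `Z` is rational. So Q2 for the intersections of `r` quadrics of all dimensions is the same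
question as Q2 for the intersections of at most `r` quadrics in the affine space of the fixed
dimension `S(r)`; and the rationality of `V` depends only on `Z`, of dimension at most `S(r)`, and the
number `m`.

Idea of the proof. *Regularisation:* if a linear combination of the equations has low rank on the
translations by a subspace `N` of `k^n`, then it depends only on few linear forms; we pass to the subspace
`N'` of `N` where they vanish. After at most `r` steps some of the combinations (a subspace of the
coefficient space `k^r`) are polynomials in `s ≤ S(r)` linear forms `u`, and all the other ones are of rank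
at least `r (2 r + 3)` on `N`. *Isotropic subspace:* there is a subspace `W` of `N` of dimension
`2 ρ` (`ρ ≤ r` the number of the remaining equations) which is isotropic for all the quadratic forms and
meets the radical of no nontrivial combination: generic vectors span a space which meets no radical
(count of parameters; specialisation to `k` by the Nullstellensatz), and a space of large dimension
contains an isotropic subspace. *Generic point:* let `x = (u, z)` be the generic point of `V`. By Krull's
theorem at least `dim N - ρ` of the coordinates `z` are independent over `k(u)`, and this implies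
that the differentials of the remaining equations at `x` are independent on `W`. *Elimination:* the
remaining equations are linear in `ρ` suitable coordinates along `W`, with an invertible matrix, and can
be solved. So `k(V) = k(u)(t_1, …, t_m)`, and `u` is the generic point of a component `Z` of the set
given by the combinations of low rank.
-/

set_option autoImplicit false

namespace Pool.Agent.Results.MP_1dc56d_ag.FewQuadrics

open MvPolynomial

variable {k : Type} [Field k] {n : ℕ}

/-- The function field of the variety in `A^n` with the prime ideal `P`: the field of fractions of the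
coordinate ring. -/
abbrev FunctionField (P : Ideal (MvPolynomial (Fin n) k)) : Type :=
  FractionRing (MvPolynomial (Fin n) k ⧸ P)

/-- The variety is rational: its function field is isomorphic to some `k(y_1, …, y_d)`. -/
def IsRational (P : Ideal (MvPolynomial (Fin n) k)) : Prop :=
  ∃ d : ℕ, Nonempty (FunctionField P ≃ₐ[k] FractionRing (MvPolynomial (Fin d) k))

/-- The variety is unirational: its function field embeds into some `k(y_1, …, y_d)`. -/
def IsUnirational (P : Ideal (MvPolynomial (Fin n) k)) : Prop :=
  ∃ d : ℕ, Nonempty (FunctionField P →ₐ[k] FractionRing (MvPolynomial (Fin d) k))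

/-- The variety is stably rational: its product with some affine space is rational. -/
def IsStablyRational (P : Ideal (MvPolynomial (Fin n) k)) : Prop :=
  ∃ m d : ℕ, Nonempty (FractionRing (MvPolynomial (Fin m) (FunctionField P)) ≃ₐ[k]
    FractionRing (MvPolynomial (Fin d) k))

/-- The substitution of the linear forms `∑ c, ℓ j c * x c` for the variables `u j`. -/
noncomputable def pullback {s : ℕ} (ℓ : Fin s → Fin n → k) :
    MvPolynomial (Fin s) k →ₐ[k] MvPolynomial (Fin n) k :=
  aeval fun j => ∑ c, C (ℓ j c) * X c

/-- **Varieties defined by few quadratic equations.** Let `k` be an algebraically closed field of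
characteristic not two, let `q 1, …, q r` be polynomials of degree at most two in `n` variables and
let `V` be an irreducible component of the set of their common zeros, with prime ideal `P`. There are
`s ≤ (2 ^ r - 1) r (2 r + 3)` independent linear forms `u j = ∑ c, ℓ j c * x c`, at most `r` polynomials `F i`
of degree at most two in `s` variables such that the `F i (u)` are linear combinations of the `q`,
and an irreducible component `Z` of the set `F = 0`, with prime ideal `p`, which is the closure of the
image of `V` under `u`, such that `V` is birational to `A^m × Z` for some `m`. In particular `V` is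
unirational iff `Z` is, stably rational iff `Z` is, and rational if `Z` is. -/
theorem result [IsAlgClosed k] (h2 : (2 : k) ≠ 0) {r : ℕ} (q : Fin r → MvPolynomial (Fin n) k)
    (hq : ∀ i, (q i).totalDegree ≤ 2) (P : Ideal (MvPolynomial (Fin n) k))
    (hP : P ∈ (Ideal.span (Set.range q)).minimalPrimes) :
    ∃ (s a : ℕ) (ℓ : Fin s → Fin n → k) (F : Fin a → MvPolynomial (Fin s) k)
      (p : Ideal (MvPolynomial (Fin s) k)),
      s ≤ (2 ^ r - 1) * (r * (2 * r + 3)) ∧ a ≤ r ∧ LinearIndependent k ℓ ∧
      (∀ i, (F i).totalDegree ≤ 2) ∧ (∀ i, pullback ℓ (F i) ∈ Submodule.span k (Set.range q)) ∧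
      p ∈ (Ideal.span (Set.range F)).minimalPrimes ∧ p = P.comap (pullback ℓ) ∧
      (∃ m : ℕ, Nonempty (FunctionField P ≃ₐ[k]
        FractionRing (MvPolynomial (Fin m) (FunctionField p)))) ∧
      (IsUnirational P ↔ IsUnirational p) ∧ (IsStablyRational P ↔ IsStablyRational p) ∧
      (IsRational p → IsRational P) := by
  have hPp : P.IsPrime := hP.1.1
  let x : Fin n → FunctionField P := fun c =>
    algebraMap (MvPolynomial (Fin n) k ⧸ P) (FunctionField P) (Ideal.Quotient.mk P (X c))
  have hx : ∀ g, aeval x g = algebraMap (MvPolynomial (Fin n) k ⧸ P) (FunctionField P)
      (Ideal.Quotient.mk P g) := by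
    intro g
    have : aeval x = (IsScalarTower.toAlgHom k (MvPolynomial (Fin n) k ⧸ P)
        (FunctionField P)).comp (Ideal.Quotient.mkₐ k P) := by
      apply MvPolynomial.algHom_ext
      intro c
      simp [x]
    exact congrArg (fun f => f g) this
  have hker : RingHom.ker (aeval x : MvPolynomial (Fin n) k →ₐ[k] FunctionField P) = P := by
    ext g
    rw [RingHom.mem_ker, hx, map_eq_zero_iff _ (IsFractionRing.injective _ _),
      Ideal.Quotient.eq_zero_iff_mem]
  obtain ⟨s, a, ℓ, F, hs, ha, hℓ, hF, hFq, hmin, m, t, ht, hg⟩ :=
    Pool.Agent.Helper66.FQ.main h2 q hq x (by rw [hker]; exact hP)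
  set u : Fin s → FunctionField P := fun j =>
    ∑ c, algebraMap k (FunctionField P) (ℓ j c) * x c with hu
  let p : Ideal (MvPolynomial (Fin s) k) :=
    RingHom.ker (aeval u : MvPolynomial (Fin s) k →ₐ[k] FunctionField P)
  have hpp : p.IsPrime := RingHom.ker_isPrime _
  have hpull : ∀ g, aeval u g = aeval x (pullback ℓ g) := by
    intro g
    have : (aeval x).comp (pullback ℓ) = aeval (R := k) u := by
      apply MvPolynomial.algHom_ext
      intro j
      simp [pullback, hu]
    exact (congrArg (fun f => f g) this).symm
  have hpP : p = P.comap (pullback ℓ) := by
    ext g
    have h6 : pullback ℓ g ∈ P ↔ aeval x (pullback ℓ g) = 0 := by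
      rw [hx, map_eq_zero_iff _ (IsFractionRing.injective _ _), Ideal.Quotient.eq_zero_iff_mem]
    rw [RingHom.mem_ker, Ideal.mem_comap, h6, hpull]
  let ψ : (MvPolynomial (Fin s) k ⧸ p) →ₐ[k] FunctionField P :=
    Ideal.kerLiftAlg (aeval u : MvPolynomial (Fin s) k →ₐ[k] FunctionField P)
  have hψ : Function.Injective ψ := Ideal.kerLiftAlg_injective _
  have hgen : Algebra.adjoin k (Set.range fun j : Fin s => Ideal.Quotient.mk p (X j)) = ⊤ := by
    rw [eq_top_iff]
    rintro z -
    obtain ⟨g, rfl⟩ := Ideal.Quotient.mk_surjective z
    rw [Algebra.adjoin_range_eq_range_aeval]
    refine ⟨g, ?_⟩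
    have : (aeval fun j : Fin s => Ideal.Quotient.mk p (X j)) = Ideal.Quotient.mkₐ k p := by
      apply MvPolynomial.algHom_ext
      intro j
      simp
    exact congrArg (fun f => f g) this
  have hgx : IntermediateField.adjoin k (Set.range x) = ⊤ := by
    refine Pool.Agent.Helper66.FQ.gen_quot (A := MvPolynomial (Fin n) k ⧸ P)
      (fun c => Ideal.Quotient.mk P (X c)) ?_
    rw [eq_top_iff]
    rintro z -
    obtain ⟨g, rfl⟩ := Ideal.Quotient.mk_surjective z
    rw [Algebra.adjoin_range_eq_range_aeval]
    refine ⟨g, ?_⟩
    have : (aeval fun j : Fin n => Ideal.Quotient.mk P (X j)) = Ideal.Quotient.mkₐ k P := by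
      apply MvPolynomial.algHom_ext
      intro j
      simp
    exact congrArg (fun f => f g) this
  obtain ⟨h1, h3, h4, h5⟩ := Pool.Agent.Helper66.FQ.concl (FF := FunctionField p)
    (fun j => Ideal.Quotient.mk p (X j)) hgen ψ hψ u (fun j => by
      change aeval u (X j) = u j
      rw [aeval_X]) t ht (by rw [← hg, hgx])
  exact ⟨s, a, ℓ, F, p, hs, ha, hℓ, hF, hFq, hmin, hpP, ⟨m, h1⟩, h3, h4, h5⟩

end Pool.Agent.Results.MP_1dc56d_ag.FewQuadrics
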