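import Pool.Agent.Helper59.MC.Fin

/-!
# Decidability of rationality, and moduli spaces of planar configurations of points
-/

set_option autoImplicit false

namespace Pool.Agent.Results.MP_1dc56d_ag.ModuliOfConfigurations

open Pool.Agent.Helper59.MC Pool.Agent.Helper13.RM

theorem result :
    (∃ F : (ℕ × List ℤ × List (List (ℤ × List ℕ))) →. Code, Partrec F ∧
      ∀ n μ c θ, IsInput n μ c θ → ∃ w ∈ F (n, μ, c), ∃ M : Matroid (Fin 4 ⊕ Fin w.1),
        Coded w M ∧ Nice M ∧ IsModel M (Ib θ n c)) ∧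
    (∀ Q : Prp, CInv Q → (DecZero Q ↔ DecMod Q) ∧ (DecMod Q → DecX Q)) ∧
    CInv (fun L _ _ => Rat' L) ∧ CInv (fun L _ _ => Uni' L) ∧ CInv (fun L _ _ => Stab' L) :=
  ⟨models, fun _ hQ => main hQ, cinv_rat, cinv_uni, cinv_stab⟩

end Pool.Agent.Results.MP_1dc56d_ag.ModuliOfConfigurations
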