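import Mathlib
import Pool.Agent.Helper66.RL.Main
import Pool.Agent.Helper66.RL.Concl
import Pool.Agent.Helper66.RL.Luroth

/-!
# Rationality and unirationality: rank loci of matrices with few rows

Every variety is birational to a component of a rank locus `{x : rank B(x) ≤ ρ}` of a matrix of polynomials
of degree at most one (already every hypersurface is the zero set of a determinant of such a square
matrix: universality of the determinant, Valiant). So Q1 and Q2 can be asked for the irreducible
components `V` of the rank loci

`{x ∈ A^n : rank B_j(x) ≤ ρ_j for all j}`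

of finitely many matrices `B_1, …, B_J` with entries of degree at most one. We measure the complexity of
the input by the numbers `r_j` of the rows; the number of the columns, the number `n` of the variables
and the dimension of `V` are unbounded. We prove that only varieties of bounded dimension matter:

**Theorem.** `V` is birational to `A^N × G`, where `G` is a closed irreducible subset of the affine space
of dimension at most `∑_j ⌊r_j² / 4⌋`: the closure of the image of `V` in (an open cell of) the product of the
Grassmannians of the relations between the rows of the `B_j`. Hence `V` is unirational if and only if `G`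
is, `V` is stably rational if and only if `G` is, and `V` is rational if `G` is. If the ground field is
algebraically closed and `∑_j ⌊r_j² / 4⌋ ≤ 1` then `V` is rational; if `∑_j ⌊r_j² / 4⌋ ≤ 2`, for instance for
one matrix with three rows or two matrices with two rows, then `V` is unirational if and only if it is
rational (and otherwise it is birational to the product of an affine space and a plane curve of positive
genus).

So for the rank loci of matrices with at most three rows (of any dimension) both questions have the
same answer and are reduced to a plane curve, and for `r` rows Q2 is reduced to the dimension at most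
`⌊r² / 4⌋`. The number of the rows cannot be omitted here, as all varieties are rank loci; already the
matrices with `r` rows give all hypersurfaces `G` of `A^{r-1}` (not formalised).

Proof. Let `x` be the generic point of `V`, with values in `L = k(V)`. Choose maximal independent sets
`S_j` of rows of the matrices `B_j(x)`, and write the other rows as combinations of these rows, with
coefficients `λ ∈ L`. Let `E = k(λ)`. For given `λ` the relations between the rows are affine-linear
equations for `x` over `E`; let `x^*` be the generic point of the space of their solutions, with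
coordinates in `M = E(T_1, …, T_N)`. The point `x^*` specialises to `x`, and the ranks of the `B_j(x^*)` are at
most `ρ_j`; as `V` is a component, `x^*` is a generic point of `V` too, so there is an embedding `φ` of
`L` in `M` over `k` which maps `x` to `x^*`. The rows of `B_j(x^*)` with indices in `S_j` are independent, so
`φ` is the identity on the `λ`, i.e. on `E`. Therefore some coordinates of `x` which are a basis of the
space generated by all coordinates and `1` over `E` are algebraically independent over `E`, and they generate
`L`. For the last part: `G` has dimension zero, one or at most two in `A^2`, and Lüroth's theorem.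
-/

set_option autoImplicit false

namespace Pool.Agent.Results.MP_1dc56d_ag.RankLoci

open MvPolynomial IntermediateField

variable {k : Type} [Field k]

/-- The function field of the variety in `A^σ` with the prime ideal `P`: the field of fractions of the
coordinate ring. -/
abbrev FunctionField {σ : Type} (P : Ideal (MvPolynomial σ k)) : Type :=
  FractionRing (MvPolynomial σ k ⧸ P)

/-- The variety is rational: its function field is isomorphic to some `k(y_1, …, y_d)`. -/
def IsRational {σ : Type} (P : Ideal (MvPolynomial σ k)) : Prop :=
  ∃ d : ℕ, Nonempty (FunctionField P ≃ₐ[k] FractionRing (MvPolynomial (Fin d) k))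

/-- The variety is unirational: its function field embeds into some `k(y_1, …, y_d)`. -/
def IsUnirational {σ : Type} (P : Ideal (MvPolynomial σ k)) : Prop :=
  ∃ d : ℕ, Nonempty (FunctionField P →ₐ[k] FractionRing (MvPolynomial (Fin d) k))

/-- The variety is stably rational: its product with some affine space is rational. -/
def IsStablyRational {σ : Type} (P : Ideal (MvPolynomial σ k)) : Prop :=
  ∃ m d : ℕ, Nonempty (FractionRing (MvPolynomial (Fin m) (FunctionField P)) ≃ₐ[k]
    FractionRing (MvPolynomial (Fin d) k))

/-- The coordinate functions of the variety. -/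
noncomputable def pt {n : ℕ} (P : Ideal (MvPolynomial (Fin n) k)) (c : Fin n) : FunctionField P :=
  algebraMap (MvPolynomial (Fin n) k ⧸ P) (FunctionField P) (Ideal.Quotient.mk P (X c))

/-- The ideal generated by the minors of size `ρ j + 1` of the matrices `B j`: it defines the set of the
points `x` such that the rank of `B j` at `x` is at most `ρ j`, for all `j`. -/
noncomputable def rankIdeal {n J : ℕ} {r m : Fin J → ℕ}
    (B : ∀ j, Matrix (Fin (r j)) (Fin (m j)) (MvPolynomial (Fin n) k)) (ρ : Fin J → ℕ) :
    Ideal (MvPolynomial (Fin n) k) :=
  Ideal.span {g | ∃ (j : Fin J) (f : Fin (ρ j + 1) → Fin (r j)) (f' : Fin (ρ j + 1) → Fin (m j)),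
    g = ((B j).submatrix f f').det}

/-- The indices of the coordinates `λ j i s`, `i ∉ S j`, `s ∈ S j`, of an affine cell of the product of the
Grassmannians of the relations between the rows of matrices with `r j` rows. -/
abbrev Idx {J : ℕ} {r : Fin J → ℕ} (S : ∀ j, Finset (Fin (r j))) : Type :=
  Σ j : Fin J, ({i : Fin (r j) // i ∉ S j} × {i : Fin (r j) // i ∈ S j})

/-- The rows with indices in `S j`, at most `ρ j` of them, are a basis of the row space of `B j` at the
generic point of the variety `P`, and `l` are the coefficients of the other rows in this basis. -/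
def RowBasis {n J : ℕ} {r m : Fin J → ℕ}
    (B : ∀ j, Matrix (Fin (r j)) (Fin (m j)) (MvPolynomial (Fin n) k)) (ρ : Fin J → ℕ)
    (P : Ideal (MvPolynomial (Fin n) k)) [P.IsPrime] (S : ∀ j, Finset (Fin (r j)))
    (l : Idx S → FunctionField P) : Prop :=
  ∀ j, (S j).card ≤ ρ j ∧
    (LinearIndependent (FunctionField P)
      fun (i : {i // i ∈ S j}) (c : Fin (m j)) => aeval (pt P) (B j i c)) ∧
    ∀ (i : {i // i ∉ S j}) (c : Fin (m j)), aeval (pt P) (B j i c) =
      ∑ s : {i // i ∈ S j}, l ⟨j, i, s⟩ * aeval (pt P) (B j s c)

/-- The variety `P` is birational to the product of an affine space and the variety `p`. -/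
def IsProduct {σ τ : Type} (P : Ideal (MvPolynomial σ k)) (p : Ideal (MvPolynomial τ k)) : Prop :=
  ∃ N : ℕ, Nonempty (FunctionField P ≃ₐ[k] FractionRing (MvPolynomial (Fin N) (FunctionField p)))

/-- **Rank loci of matrices with few rows.** Let `B 1, …, B J` be matrices with entries of degree at most
one in `n` variables, let `B j` have `r j` rows, and let `V` be an irreducible component of the
set where the rank of `B j` is at most `ρ j` for all `j`, with prime ideal `P` and generic point
`x = pt P`. Then there are sets `S j` of at most `ρ j` rows which are a basis of the row space of `B j (x)`, and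
if `λ j i s` are the coefficients of the other rows in this basis and `G` is the closure of the image of `V`
under `λ`, with prime ideal `p`, then `V` is birational to `A^N × G` for some `N`. The number of the
coordinates `λ` is at most `∑ j, ⌊r j ^ 2 / 4⌋`. In particular `V` is unirational iff `G` is, stably rational iff
`G` is, and rational if `G` is.

If `k` is algebraically closed and `∑ j, ⌊r j ^ 2 / 4⌋ ≤ 1` then `V` is rational; if
`∑ j, ⌊r j ^ 2 / 4⌋ ≤ 2` then `V` is unirational iff it is rational. -/
theorem result {n J : ℕ} {r m : Fin J → ℕ}
    (B : ∀ j, Matrix (Fin (r j)) (Fin (m j)) (MvPolynomial (Fin n) k)) (ρ : Fin J → ℕ)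
    (hB : ∀ j i c, (B j i c).totalDegree ≤ 1) (P : Ideal (MvPolynomial (Fin n) k)) [P.IsPrime]
    (hP : P ∈ (rankIdeal B ρ).minimalPrimes) :
    (∃ (S : ∀ j, Finset (Fin (r j))) (l : Idx S → FunctionField P)
      (p : Ideal (MvPolynomial (Idx S) k)), RowBasis B ρ P S l ∧
      Fintype.card (Idx S) ≤ ∑ j, r j ^ 2 / 4 ∧ p = RingHom.ker (aeval (R := k) l) ∧
      IsProduct P p ∧ (IsUnirational P ↔ IsUnirational p) ∧
      (IsStablyRational P ↔ IsStablyRational p) ∧ (IsRational p → IsRational P)) ∧
    (IsAlgClosed k →
      (∑ j, r j ^ 2 / 4 ≤ 1 → IsRational P) ∧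
      (∑ j, r j ^ 2 / 4 ≤ 2 → (IsUnirational P ↔ IsRational P))) := by
  have hx : ∀ g, aeval (pt P) g = algebraMap (MvPolynomial (Fin n) k ⧸ P) (FunctionField P)
      (Ideal.Quotient.mk P g) := by
    intro g
    have : aeval (pt P) = (IsScalarTower.toAlgHom k (MvPolynomial (Fin n) k ⧸ P)
        (FunctionField P)).comp (Ideal.Quotient.mkₐ k P) := by
      apply MvPolynomial.algHom_ext
      intro c
      simp [pt]
    exact congrArg (fun f => f g) this
  have hker : RingHom.ker (aeval (pt P) : MvPolynomial (Fin n) k →ₐ[k] FunctionField P) = P := by
    ext g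
    rw [RingHom.mem_ker, hx, map_eq_zero_iff _ (IsFractionRing.injective _ _),
      Ideal.Quotient.eq_zero_iff_mem]
  have hgx : IntermediateField.adjoin k (Set.range (pt P)) = ⊤ := by
    refine Pool.Agent.Helper66.FQ.gen_quot (A := MvPolynomial (Fin n) k ⧸ P)
      (fun c => Ideal.Quotient.mk P (X c)) ?_
    rw [eq_top_iff]
    rintro z -
    obtain ⟨g, rfl⟩ := Ideal.Quotient.mk_surjective z
    rw [Algebra.adjoin_range_eq_range_aeval]
    refine ⟨g, ?_⟩
    have : (aeval fun c => Ideal.Quotient.mk P (X c)) = Ideal.Quotient.mkₐ k P := by
      apply MvPolynomial.algHom_ext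
      intro j
      simp
    exact congrArg (fun f => f g) this
  obtain ⟨S, l, N, t, hS1, hcard, hS2, hl, ht, hg⟩ :=
    Pool.Agent.Helper66.RL.core B ρ hB (pt P) hgx (by rw [hker]; exact hP)
  let p : Ideal (MvPolynomial (Idx S) k) :=
    RingHom.ker (aeval l : MvPolynomial (Idx S) k →ₐ[k] FunctionField P)
  have hpp : p.IsPrime := RingHom.ker_isPrime _
  let ψ : (MvPolynomial (Idx S) k ⧸ p) →ₐ[k] FunctionField P :=
    Ideal.kerLiftAlg (aeval l : MvPolynomial (Idx S) k →ₐ[k] FunctionField P)
  have hψ : Function.Injective ψ := Ideal.kerLiftAlg_injective _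
  have hgen : Algebra.adjoin k (Set.range fun j : Idx S => Ideal.Quotient.mk p (X j)) = ⊤ := by
    rw [eq_top_iff]
    rintro z -
    obtain ⟨g, rfl⟩ := Ideal.Quotient.mk_surjective z
    rw [Algebra.adjoin_range_eq_range_aeval]
    refine ⟨g, ?_⟩
    have : (aeval fun j : Idx S => Ideal.Quotient.mk p (X j)) = Ideal.Quotient.mkₐ k p := by
      apply MvPolynomial.algHom_ext
      intro j
      simp
    exact congrArg (fun f => f g) this
  obtain ⟨h1, h3, h4, h5⟩ := Pool.Agent.Helper66.RL.concl (FF := FunctionField p)
    (fun j => Ideal.Quotient.mk p (X j)) hgen ψ hψ l (fun j => by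
      change aeval l (X j) = l j
      rw [aeval_X]) t ht hg
  refine ⟨⟨S, l, p, fun j => ⟨hS1 j, hS2 j, hl j⟩, hcard, rfl, ⟨N, h1⟩, h3, h4, h5⟩,
    fun halg => ?_⟩
  -- the field of functions of `G`
  let v : Idx S → FunctionField p := fun j =>
    algebraMap (MvPolynomial (Idx S) k ⧸ p) (FunctionField p) (Ideal.Quotient.mk p (X j))
  have hv : IntermediateField.adjoin k (Set.range v) = ⊤ :=
    Pool.Agent.Helper66.RL.gen_quot (A := MvPolynomial (Idx S) k ⧸ p)
      (fun j : Idx S => Ideal.Quotient.mk p (X j)) hgen
  have hcard' : Fintype.card (Idx S) ≤ ∑ j, r j ^ 2 / 4 := hcard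
  obtain ⟨v', hv'⟩ := Pool.Agent.Helper66.RL.gen_fin v hv
  obtain ⟨τ, hτ, htr, hind⟩ := Pool.Agent.Helper66.RL.trdeg_cases v' hv'
  have key : (τ = 0 ∨ τ = Fintype.card (Idx S)) → IsRational p := by
    rintro (h | h)
    · exact Pool.Agent.Helper66.RL.rat_of_zero (by rw [htr, h]; simp)
    · exact Pool.Agent.Helper66.RL.rat_of_indep v' hv' (hind h)
  refine ⟨fun h6 => h5 (key (by omega)), fun h6 => ⟨fun h7 => ?_, ?_⟩⟩
  · by_cases h8 : τ = 1
    · obtain ⟨d, ⟨f⟩⟩ := h3.1 h7
      exact h5 ⟨1, Pool.Agent.Helper66.RL.luroth_rf v' hv' (by rw [htr, h8]; simp) f⟩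
    · exact h5 (key (by omega))
  · rintro ⟨d, ⟨e⟩⟩
    exact ⟨d, ⟨e.toAlgHom⟩⟩

end Pool.Agent.Results.MP_1dc56d_ag.RankLoci
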